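import Mathlib
import Pool.Agent.Lib.MP_de94ef_pr.U.Dev

open MeasureTheory ProbabilityTheory Filter

namespace Pool.Agent.Results.MP_de94ef_pr.Deviation

/-- Deviation bound for the passage time around the time constant, at all scales, with a
polynomial gain over the Gaussian bound. -/
theorem result : ∃ η c C : ℝ, 0 < η ∧ η < 1 ∧ 0 < c ∧
    ∀ (Ω : Type) [MeasureSpace Ω] [IsProbabilityMeasure (volume : Measure Ω)]
    (X : Sym2 (ℤ × ℤ) → Ω → ℝ) (T : Ω → ℤ × ℤ → ℝ) (μ : ℝ × ℝ → ℝ),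
    (∀ e, Measurable (X e)) →
    iIndepFun X (volume : Measure Ω) →
    (∀ e, Measure.map (X e) (volume : Measure Ω) = expMeasure 1) →
    (∀ ω v, T ω v = sInf {s : ℝ | ∃ n : ℕ, ∃ p : ℕ → ℤ × ℤ, p 0 = 0 ∧ p n = v ∧
        (∀ i < n, |(p (i + 1)).1 - (p i).1| + |(p (i + 1)).2 - (p i).2| = 1) ∧
        s = ∑ i ∈ Finset.range n, X s(p i, p (i + 1)) ω}) →
    (∀ (x : ℝ × ℝ) (c : ℝ), 0 ≤ c → μ (c • x) = c * μ x) →
    Continuous μ →
    (∀ z : ℤ × ℤ, ∀ᵐ ω ∂(volume : Measure Ω),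
        Tendsto (fun n : ℕ => T ω ((n : ℤ) • z) / (n : ℝ)) atTop
          (nhds (μ ((z.1 : ℝ), (z.2 : ℝ))))) →
    ∀ (v : ℤ × ℤ) (n s : ℝ), v ≠ 0 → n = |(v.1 : ℝ)| + |(v.2 : ℝ)| → 0 < s →
      ((volume : Measure Ω) {ω | s ≤ |T ω v - μ ((v.1 : ℝ), (v.2 : ℝ))|}).toReal ≤
        C * Real.exp (-(c * (s * min 1 (s / n) ^ η))) :=
  Pool.Agent.Lib.MP_de94ef_pr.U.deviation_of_boundary

end Pool.Agent.Results.MP_de94ef_pr.Deviation
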