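import Mathlib
import Pool.Agent.Lib.MP_de94ef_pr.AS.Two

open MeasureTheory ProbabilityTheory Filter

namespace Pool.Agent.Results.MP_de94ef_pr.EveryScale

open Pool.Agent.Lib.MP_de94ef_pr Pool.Agent.Lib.MP_de94ef_pr.Q

/-- In every large ball some passage time deviates from the time constant on both sides, by any
power below the fifth root of the radius, with probability bounded below. -/
theorem result : ∀ a : ℝ, a < 1 / 5 → ∃ p : ℝ, 0 < p ∧ ∃ n₀ : ℕ,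
    ∀ (Ω : Type) [MeasureSpace Ω] [IsProbabilityMeasure (volume : Measure Ω)]
    (X : Sym2 (ℤ × ℤ) → Ω → ℝ) (T : Ω → ℤ × ℤ → ℝ) (μ : ℝ × ℝ → ℝ),
    (∀ e, Measurable (X e)) →
    iIndepFun X (volume : Measure Ω) →
    (∀ e, Measure.map (X e) (volume : Measure Ω) = expMeasure 1) →
    (∀ ω v, T ω v = sInf {s : ℝ | ∃ n : ℕ, ∃ p : ℕ → ℤ × ℤ, p 0 = 0 ∧ p n = v ∧
        (∀ i < n, |(p (i + 1)).1 - (p i).1| + |(p (i + 1)).2 - (p i).2| = 1) ∧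
        s = ∑ i ∈ Finset.range n, X s(p i, p (i + 1)) ω}) →
    (∀ (x : ℝ × ℝ) (c : ℝ), 0 ≤ c → μ (c • x) = c * μ x) →
    Continuous μ →
    (∀ z : ℤ × ℤ, ∀ᵐ ω ∂(volume : Measure Ω),
        Tendsto (fun n : ℕ => T ω ((n : ℤ) • z) / (n : ℝ)) atTop
          (nhds (μ ((z.1 : ℝ), (z.2 : ℝ))))) →
    ∀ n : ℕ, n₀ ≤ n → ∃ v : ℤ × ℤ, |(v.1 : ℝ)| + |(v.2 : ℝ)| ≤ n ∧
      p ≤ ((volume : Measure Ω) {ω | T ω v ≤
        μ ((v.1 : ℝ), (v.2 : ℝ)) - (n : ℝ) ^ a}).toReal ∧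
      p ≤ ((volume : Measure Ω) {ω |
        μ ((v.1 : ℝ), (v.2 : ℝ)) + (n : ℝ) ^ a ≤ T ω v}).toReal := by
  intro a ha
  obtain ⟨p, p0, n0, h⟩ := AS.every ha
  refine ⟨p, p0, n0, fun Ω _ _ X T μ h1 h2 h3 h4 h5 h6 h7 n hn => ?_⟩
  obtain ⟨Φ, hΦ, hT, hμ⟩ := transfer h1 h2 h3 h4 h5 h6 h7
  obtain ⟨v, hv, b1, b2⟩ := h μ hμ n hn
  refine ⟨v, hv, b1.trans (le_of_eq ?_), b2.trans (le_of_eq ?_)⟩
  · rw [Measure.real, ← hΦ.measure_preimage
      (measurableSet_le (measurable_TT 0 v) measurable_const).nullMeasurableSet]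
    refine congrArg _ (measure_congr (hT.mono fun ω hω => ?_))
    change (TT (Φ ω) 0 v ≤ _) = (T ω v ≤ _)
    rw [hω v]; rfl
  · rw [Measure.real, ← hΦ.measure_preimage
      (measurableSet_le measurable_const (measurable_TT 0 v)).nullMeasurableSet]
    refine congrArg _ (measure_congr (hT.mono fun ω hω => ?_))
    change (_ ≤ TT (Φ ω) 0 v) = (_ ≤ T ω v)
    rw [hω v]; rfl

end Pool.Agent.Results.MP_de94ef_pr.EveryScale
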