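import Mathlib
import Pool.Agent.Lib.MP_de94ef_pr.W.Boot
import Pool.Agent.Lib.MP_de94ef_pr.W.Inner
import Pool.Agent.Lib.MP_de94ef_pr.RF.Outer
import Pool.Agent.Lib.MP_de94ef_pr.RF.Inner

open MeasureTheory ProbabilityTheory Filter
open scoped Pointwise

namespace Pool.Agent.Results.MP_de94ef_pr.Reduction

open Pool.Agent.Lib.MP_de94ef_pr Pool.Agent.Lib.MP_de94ef_pr.Q

/-- The two shape estimates, the inner estimate alone, the variance bound with exponent `2/3`,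
the bound on the non-random error with exponent `1/3`, and each shape estimate alone with a
probability that merely tends to zero, are equivalent. -/
theorem result :
    ∀ (Ω : Type) [MeasureSpace Ω] [IsProbabilityMeasure (volume : Measure Ω)]
    (X : Sym2 (ℤ × ℤ) → Ω → ℝ) (T : Ω → ℤ × ℤ → ℝ) (μ : ℝ × ℝ → ℝ),
    (∀ e, Measurable (X e)) →
    iIndepFun X (volume : Measure Ω) →
    (∀ e, Measure.map (X e) (volume : Measure Ω) = expMeasure 1) →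
    (∀ ω v, T ω v = sInf {s : ℝ | ∃ n : ℕ, ∃ p : ℕ → ℤ × ℤ, p 0 = 0 ∧ p n = v ∧
        (∀ i < n, |(p (i + 1)).1 - (p i).1| + |(p (i + 1)).2 - (p i).2| = 1) ∧
        s = ∑ i ∈ Finset.range n, X s(p i, p (i + 1)) ω}) →
    (∀ (x : ℝ × ℝ) (c : ℝ), 0 ≤ c → μ (c • x) = c * μ x) →
    Continuous μ →
    (∀ z : ℤ × ℤ, ∀ᵐ ω ∂(volume : Measure Ω),
        Tendsto (fun n : ℕ => T ω ((n : ℤ) • z) / (n : ℝ)) atTop
          (nhds (μ ((z.1 : ℝ), (z.2 : ℝ))))) →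
    List.TFAE [
    ∀ ζ : ℝ, 0 < ζ → ζ < 2 / 3 → ∀ q : ℝ, 0 < q →
      Asymptotics.IsBigO atTop
        (fun t : ℝ => ((volume : Measure Ω) {ω | ¬ ({x : ℝ × ℝ | ∃ v : ℤ × ℤ, T ω v ≤ t ∧
            |x.1 - (v.1 : ℝ)| ≤ 1 / 2 ∧ |x.2 - (v.2 : ℝ)| ≤ 1 / 2} ⊆
            ((1 + t ^ (-(2 / 3 : ℝ) + ζ)) * t) • {x : ℝ × ℝ | μ x ≤ 1})}).toReal)
        (fun t : ℝ => t ^ (-q)) ∧
      Asymptotics.IsBigO atTop
        (fun t : ℝ => ((volume : Measure Ω) {ω | ¬ (((1 - t ^ (-(2 / 3 : ℝ) + ζ)) * t) •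
            {x : ℝ × ℝ | μ x ≤ 1} ⊆ {x : ℝ × ℝ | ∃ v : ℤ × ℤ, T ω v ≤ t ∧
            |x.1 - (v.1 : ℝ)| ≤ 1 / 2 ∧ |x.2 - (v.2 : ℝ)| ≤ 1 / 2})}).toReal)
        (fun t : ℝ => t ^ (-q)),
    ∀ ζ : ℝ, 0 < ζ → ζ < 2 / 3 → ∀ q : ℝ, 0 < q →
      Asymptotics.IsBigO atTop
        (fun t : ℝ => ((volume : Measure Ω) {ω | ¬ (((1 - t ^ (-(2 / 3 : ℝ) + ζ)) * t) •
            {x : ℝ × ℝ | μ x ≤ 1} ⊆ {x : ℝ × ℝ | ∃ v : ℤ × ℤ, T ω v ≤ t ∧
            |x.1 - (v.1 : ℝ)| ≤ 1 / 2 ∧ |x.2 - (v.2 : ℝ)| ≤ 1 / 2})}).toReal)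
        (fun t : ℝ => t ^ (-q)),
    ∀ ε : ℝ, 0 < ε → ∃ C : ℝ, ∀ v : ℤ × ℤ, v ≠ 0 →
      variance (fun ω => T ω v) (volume : Measure Ω) ≤
        C * (|(v.1 : ℝ)| + |(v.2 : ℝ)|) ^ (2 / 3 + ε),
    ∀ ε : ℝ, 0 < ε → ∃ C : ℝ, ∀ v : ℤ × ℤ, v ≠ 0 →
      (∫ ω, T ω v ∂(volume : Measure Ω)) - μ ((v.1 : ℝ), (v.2 : ℝ)) ≤
        C * (|(v.1 : ℝ)| + |(v.2 : ℝ)|) ^ (1 / 3 + ε),
    ∀ ζ : ℝ, 0 < ζ → ζ < 2 / 3 →
      Tendsto
        (fun t : ℝ => ((volume : Measure Ω) {ω | ¬ ({x : ℝ × ℝ | ∃ v : ℤ × ℤ, T ω v ≤ t ∧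
            |x.1 - (v.1 : ℝ)| ≤ 1 / 2 ∧ |x.2 - (v.2 : ℝ)| ≤ 1 / 2} ⊆
            ((1 + t ^ (-(2 / 3 : ℝ) + ζ)) * t) • {x : ℝ × ℝ | μ x ≤ 1})}).toReal)
        atTop (nhds 0),
    ∀ ζ : ℝ, 0 < ζ → ζ < 2 / 3 →
      Tendsto
        (fun t : ℝ => ((volume : Measure Ω) {ω | ¬ (((1 - t ^ (-(2 / 3 : ℝ) + ζ)) * t) •
            {x : ℝ × ℝ | μ x ≤ 1} ⊆ {x : ℝ × ℝ | ∃ v : ℤ × ℤ, T ω v ≤ t ∧
            |x.1 - (v.1 : ℝ)| ≤ 1 / 2 ∧ |x.2 - (v.2 : ℝ)| ≤ 1 / 2})}).toReal)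
        atTop (nhds 0)] := by
  intro Ω _ _ X T μ h1 h2 h3 h4 h5 h6 h7
  obtain ⟨Φ, hΦ, ha, hμ⟩ := transfer h1 h2 h3 h4 h5 h6 h7
  have hv : ∀ v, variance (fun ω => T ω v) (volume : Measure Ω) =
      variance (fun ω => TT ω 0 v) PE := fun v => by
    rw [← hΦ.variance_fun_comp (measurable_TT 0 v).aemeasurable]
    exact variance_congr (ha.mono fun ω hω => hω v)
  have hm : ∀ v, ∫ ω, T ω v ∂(volume : Measure Ω) = hh v := fun v => by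
    rw [integral_congr_ae (ha.mono fun ω hω => hω v), hh, ← hΦ.map_eq,
      integral_map hΦ.aemeasurable (measurable_TT 0 v).aestronglyMeasurable]
  simp only [hv, hm]
  tfae_have 1 → 2 := fun h ζ b1 b2 q hq => (h ζ b1 b2 q hq).2
  tfae_have 2 → 4 := fun h ε hε => by
    have z0 : 0 < min ε (1 / 3) := by positivity
    have z1 : min ε (1 / 3) < 2 / 3 := (min_le_right _ _).trans_lt (by norm_num)
    obtain ⟨G, G0, hG⟩ := V.mean_of_inner hΦ ha hμ z0 z1 (h _ z0 z1 4 (by norm_num))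
    exact ⟨G, fun v hv0 => (hG v (V.one_le_n1 hv0)).trans (mul_le_mul_of_nonneg_left
      (Real.rpow_le_rpow_of_exponent_le (V.one_le_n1 hv0)
        (by linarith [min_le_left ε (1 / 3)])) G0)⟩
  tfae_have 4 → 3 := fun h ε hε => by
    have z0 : 0 < min (ε / 2) (1 / 12) := by positivity
    obtain ⟨G, hG⟩ := h _ z0
    obtain ⟨D, hD⟩ := V.var_of_mean hμ (e := 1 / 3 + min (ε / 2) (1 / 12)) (G := G)
      (by linarith) (by linarith [min_le_right (ε / 2) (1 / 12)])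
      fun v hv1 => hG v (V.ne_zero_of_n1 hv1)
    refine ⟨|D|, fun v hv0 => (hD v (V.one_le_n1 hv0)).trans ?_⟩
    exact mul_le_mul (le_abs_self D) (Real.rpow_le_rpow_of_exponent_le (V.one_le_n1 hv0)
      (by linarith [min_le_left (ε / 2) (1 / 12)])) (Real.rpow_nonneg (n1_nonneg v) _)
      (abs_nonneg D)
  tfae_have 3 → 1 := fun h ζ b1 b2 q _ => by
    have z0 : 0 < min (ζ / 2) (1 / 6) := by positivity
    obtain ⟨D, hD⟩ := h (2 * min (ζ / 2) (1 / 6)) (by positivity)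
    obtain ⟨C, hC, hb⟩ := V.bad_pow hμ (e := 1 / 3 + min (ζ / 2) (1 / 6)) (D := D) (ζ := ζ)
      (by linarith) (by linarith [min_le_right (ζ / 2) (1 / 6)])
      (fun v hv1 => by
        rw [show 2 * (1 / 3 + min (ζ / 2) (1 / 6)) = 2 / 3 + 2 * min (ζ / 2) (1 / 6) by ring]
        exact hD v (V.ne_zero_of_n1 hv1))
      (by linarith [min_le_left (ζ / 2) (1 / 6)]) b2 q
    refine ⟨V.isBigO_of_bad' hΦ hC hb ?_, V.isBigO_of_bad' hΦ hC hb ?_⟩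
    · filter_upwards [V.eventually_pow (show -(1 / 3) < ζ by linarith) b2] with t ht
      filter_upwards [ha] with ω hω hE
      refine outer_bad hμ ht.1 ht.2.1.le ?_
      simpa only [← hω, ← ht.2.2] using hE
    · filter_upwards [V.eventually_pow (show -(1 / 3) < ζ by linarith) b2] with t ht
      filter_upwards [ha] with ω hω hE
      refine inner_bad hμ ht.1 ht.2.1 ?_
      simpa only [← hω, ← ht.2.2] using hE
  tfae_have 1 → 5 := fun h ζ b1 b2 =>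
    (h ζ b1 b2 1 one_pos).1.trans_tendsto (tendsto_rpow_neg_atTop one_pos)
  tfae_have 5 → 3 := fun h ε hε => by
    have z0 : 0 < min (ε / 2) (1 / 6) := by positivity
    obtain ⟨D, hD⟩ := RF.var_of_outer hΦ ha hμ z0 (min_le_right _ _)
      (h _ z0 ((min_le_right _ _).trans_lt (by norm_num)))
    refine ⟨|D|, fun v hv0 => (hD v (V.one_le_n1 hv0)).trans ?_⟩
    exact mul_le_mul (le_abs_self D) (Real.rpow_le_rpow_of_exponent_le (V.one_le_n1 hv0)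
      (by linarith [min_le_left (ε / 2) (1 / 6)])) (Real.rpow_nonneg (n1_nonneg v) _)
      (abs_nonneg D)
  tfae_have 2 → 6 := fun h ζ b1 b2 =>
    (h ζ b1 b2 1 one_pos).trans_tendsto (tendsto_rpow_neg_atTop one_pos)
  tfae_have 6 → 3 := fun h ε hε => by
    have z0 : 0 < min (ε / 2) (1 / 6) := by positivity
    obtain ⟨D, hD⟩ := RF.var_of_inner hΦ ha hμ z0 (min_le_right _ _)
      (h _ z0 ((min_le_right _ _).trans_lt (by norm_num)))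
    refine ⟨|D|, fun v hv0 => (hD v (V.one_le_n1 hv0)).trans ?_⟩
    exact mul_le_mul (le_abs_self D) (Real.rpow_le_rpow_of_exponent_le (V.one_le_n1 hv0)
      (by linarith [min_le_left (ε / 2) (1 / 6)])) (Real.rpow_nonneg (n1_nonneg v) _)
      (abs_nonneg D)
  tfae_finish

end Pool.Agent.Results.MP_de94ef_pr.Reduction
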