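import Mathlib
import Pool.Agent.Lib.MP_de94ef_pr.Q.ShapeP

open MeasureTheory ProbabilityTheory Filter
open scoped Pointwise

namespace Pool.Agent.Results.MP_de94ef_pr.ShapeExp

open Pool.Agent.Lib.MP_de94ef_pr Pool.Agent.Lib.MP_de94ef_pr.Q

/-- The cluster lies between the two dilates of the limit shape, outside an event of
superpolynomially small probability, for all exponents above some threshold smaller than `1/6`. -/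
theorem result : ∃ ζ0 : ℝ, ζ0 < 1 / 6 ∧
    ∀ (Ω : Type) [MeasureSpace Ω] [IsProbabilityMeasure (volume : Measure Ω)]
    (X : Sym2 (ℤ × ℤ) → Ω → ℝ) (T : Ω → ℤ × ℤ → ℝ) (μ : ℝ × ℝ → ℝ),
    (∀ e, Measurable (X e)) →
    iIndepFun X (volume : Measure Ω) →
    (∀ e, Measure.map (X e) (volume : Measure Ω) = expMeasure 1) →
    (∀ ω v, T ω v = sInf {s : ℝ | ∃ n : ℕ, ∃ p : ℕ → ℤ × ℤ, p 0 = 0 ∧ p n = v ∧
        (∀ i < n, |(p (i + 1)).1 - (p i).1| + |(p (i + 1)).2 - (p i).2| = 1) ∧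
        s = ∑ i ∈ Finset.range n, X s(p i, p (i + 1)) ω}) →
    (∀ (x : ℝ × ℝ) (c : ℝ), 0 ≤ c → μ (c • x) = c * μ x) →
    Continuous μ →
    (∀ z : ℤ × ℤ, ∀ᵐ ω ∂(volume : Measure Ω),
        Tendsto (fun n : ℕ => T ω ((n : ℤ) • z) / (n : ℝ)) atTop
          (nhds (μ ((z.1 : ℝ), (z.2 : ℝ))))) →
    ∀ ζ : ℝ, ζ0 < ζ → ζ < 2 / 3 → ∀ q : ℝ, 0 < q →
      Asymptotics.IsBigO atTop
        (fun t : ℝ => ((volume : Measure Ω) {ω | ¬ (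
            ((1 - t ^ (-(2 / 3 : ℝ) + ζ)) * t) • {x : ℝ × ℝ | μ x ≤ 1} ⊆
              {x : ℝ × ℝ | ∃ v : ℤ × ℤ, T ω v ≤ t ∧
                |x.1 - (v.1 : ℝ)| ≤ 1 / 2 ∧ |x.2 - (v.2 : ℝ)| ≤ 1 / 2} ∧
            {x : ℝ × ℝ | ∃ v : ℤ × ℤ, T ω v ≤ t ∧
                |x.1 - (v.1 : ℝ)| ≤ 1 / 2 ∧ |x.2 - (v.2 : ℝ)| ≤ 1 / 2} ⊆
              ((1 + t ^ (-(2 / 3 : ℝ) + ζ)) * t) • {x : ℝ × ℝ | μ x ≤ 1})}).toReal)
        (fun t : ℝ => t ^ (-q)) := by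
  obtain ⟨ζ0, a1, a2, h⟩ := bad_pow
  refine ⟨ζ0, a2, fun Ω _ _ X T μ h1 h2 h3 h4 h5 h6 h7 ζ b1 b2 q _ => ?_⟩
  obtain ⟨Φ, hΦ, ha, hμ⟩ := transfer h1 h2 h3 h4 h5 h6 h7
  obtain ⟨C, hC, h⟩ := h μ hμ ζ b1 b2 q
  refine isBigO_of_bad' hΦ hC h ?_
  filter_upwards [eventually_pow (a1.trans b1) b2] with t ht
  filter_upwards [ha] with ω hω hE
  rcases not_and_or.1 hE with hE | hE
  · refine inner_bad hμ ht.1 ht.2.1 ?_
    simpa only [← hω, ← ht.2.2] using hE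
  · refine outer_bad hμ ht.1 ht.2.1.le ?_
    simpa only [← hω, ← ht.2.2] using hE

end Pool.Agent.Results.MP_de94ef_pr.ShapeExp
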